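import Mathlib.Analysis.ODE.ExistUnique
import Mathlib.Analysis.Calculus.Deriv.Shift

/-! The time-one map of a Lipschitz vector field that vanishes at the origin. -/

open Set Metric

noncomputable section

namespace Pool.Agent.MP_6600f1_ag.Tr

variable {X : Type} [NormedAddCommGroup X] [NormedSpace ℝ X] {v : ℝ → X → X} {c d : ℝ → X}

/-- solution on the unit interval -/
def IsSol (v : ℝ → X → X) (c : ℝ → X) : Prop :=
  ∀ t ∈ Icc (0 : ℝ) 1, HasDerivWithinAt c (v t (c t)) (Icc 0 1) t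

structure Good (v : ℝ → X → X) : Prop where
  lip : ∀ t ∈ Icc (0 : ℝ) 1, LipschitzWith (1 / 2) (v t)
  zero : ∀ t ∈ Icc (0 : ℝ) 1, v t 0 = 0
  cont : ∀ x, ContinuousOn (v · x) (Icc 0 1)

theorem IsSol.cont (h : IsSol v c) : ContinuousOn c (Icc 0 1) := fun t ht =>
  (h t ht).continuousWithinAt

theorem IsSol.right (h : IsSol v c) (t : ℝ) (ht : t ∈ Ico (0 : ℝ) 1) :
    HasDerivWithinAt c (v t (c t)) (Ici t) t :=
  (h t (Ico_subset_Icc_self ht)).mono_of_mem_nhdsWithin (Icc_mem_nhdsGE_of_mem ht)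

theorem Good.ex [CompleteSpace X] (h : Good v) (x : X) : ∃ c, c 0 = x ∧ IsSol v c := by
  have p : IsPicardLindelof v (⟨0, by simp⟩ : Icc (0 : ℝ) 1) (0 : X) (2 * ‖x‖₊) ‖x‖₊ ‖x‖₊ (1 / 2) :=
    ⟨fun t ht => (h.lip t ht).lipschitzOnWith, fun y _ => h.cont y, fun t ht y hy => by
      have := (h.lip t ht).dist_le_mul y 0
      rw [h.zero t ht, dist_zero_right, dist_zero_right] at this
      rw [mem_closedBall_zero_iff] at hy
      push_cast at this hy ⊢
      linarith, by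
      simp only [sub_zero, sub_self, max_eq_left zero_le_one]
      push_cast
      linarith⟩
  exact p.exists_eq_forall_mem_Icc_hasDerivWithinAt (by simp)

theorem Good.dist (h : Good v) (hc : IsSol v c) (hd : IsSol v d) :
    dist (c 1) (d 1) ≤ dist (c 0) (d 0) * Real.exp (((1 / 2 : NNReal) : ℝ) * (1 - 0)) :=
  dist_le_of_trajectories_ODE_of_mem (s := fun _ => univ)
    (fun t ht => (h.lip t (Ico_subset_Icc_self ht)).lipschitzOnWith) hc.cont hc.right
    (fun _ _ => trivial) hd.cont hd.right (fun _ _ => trivial) le_rfl 1 (by simp)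

theorem mem_rev {t : ℝ} (ht : t ∈ Icc (0 : ℝ) 1) : 1 - t ∈ Icc (0 : ℝ) 1 :=
  ⟨by linarith [ht.2], by linarith [ht.1]⟩

omit [NormedSpace ℝ X] in
theorem Good.rev (h : Good v) : Good fun t x => -v (1 - t) x :=
  ⟨fun t ht => (h.lip _ (mem_rev ht)).neg, fun t ht => by simp [h.zero _ (mem_rev ht)],
    fun x => ((h.cont x).comp (by fun_prop) fun t ht => mem_rev ht).neg⟩

theorem IsSol.rev (h : IsSol v c) : IsSol (fun t x => -v (1 - t) x) fun t => c (1 - t) := by
  intro t ht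
  have := (h _ (mem_rev ht)).scomp t ((hasDerivAt_id t).const_sub 1).hasDerivWithinAt
    fun s hs => mem_rev hs
  simpa [Function.comp_def] using this

theorem Good.map [CompleteSpace X] (h : Good v) : ∃ φ : X → X, Continuous φ ∧
    (∀ x, ∃ c, c 0 = x ∧ IsSol v c) ∧ ∀ c, IsSol v c → c 1 = φ (c 0) := by
  choose s s0 hs using h.ex
  refine ⟨fun x => s x 1, (LipschitzWith.of_dist_le' (K := Real.exp (((1 / 2 : NNReal) : ℝ) *
    (1 - 0))) fun x y => ?_).continuous, h.ex, fun c hc => ?_⟩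
  · have := h.dist (hs x) (hs y)
    rwa [s0, s0, mul_comm] at this
  · have := h.dist hc (hs (c 0))
    rwa [s0, dist_self, zero_mul, dist_le_zero] at this

theorem Good.homeo [CompleteSpace X] (h : Good v) : ∃ φ : X ≃ₜ X, ∀ c, IsSol v c → c 1 = φ (c 0) := by
  obtain ⟨φ, c1, e1, u1⟩ := h.map
  obtain ⟨ψ, c2, e2, u2⟩ := h.rev.map
  refine ⟨⟨⟨φ, ψ, fun x => ?_, fun x => ?_⟩, c1, c2⟩, u1⟩
  · obtain ⟨c, rfl, hc⟩ := e1 x
    simpa [u1 c hc] using (u2 _ hc.rev).symm
  · obtain ⟨c, rfl, hc⟩ := e2 x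
    have : IsSol v fun t => c (1 - t) := by simpa using hc.rev
    simpa [u2 c hc] using (u1 _ this).symm

theorem IsSol.clm (h : IsSol v c) (L : X →L[ℝ] X)
    (hL : ∀ t ∈ Icc (0 : ℝ) 1, ∀ x, v t (L x) = L (v t x)) : IsSol v fun t => L (c t) := by
  intro t ht
  rw [hL t ht]
  exact L.hasFDerivAt.comp_hasDerivWithinAt t (h t ht)

/-- a positively homogeneous map that is Lipschitz on a shell is Lipschitz -/
theorem lip_of_shell {f : X → X} {K : NNReal} (hf : ∀ (r : ℝ) x, 0 ≤ r → f (r • x) = r • f x)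
    (h1 : LipschitzOnWith K f {x | 1 / 2 ≤ ‖x‖ ∧ ‖x‖ ≤ 1}) (h2 : ∀ x, ‖x‖ = 1 → ‖f x‖ ≤ K) :
    LipschitzWith (4 * K) f := by
  have K0 : (0 : ℝ) ≤ K := K.2
  have b : ∀ x, ‖f x‖ ≤ K * ‖x‖ := fun x => by
    by_cases x0 : x = 0
    · have := hf 0 x le_rfl
      simp only [zero_smul] at this
      simp [x0, this]
    · have n0 := norm_pos_iff.2 x0
      have := h2 (‖x‖⁻¹ • x) (by simp [norm_smul, n0.ne'])
      rw [hf _ _ (by positivity), norm_smul, norm_inv, norm_norm, inv_mul_le_iff₀ n0] at this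
      linarith
  have key : ∀ x y, ‖y‖ ≤ ‖x‖ → dist (f x) (f y) ≤ 4 * K * dist x y := fun x y l => by
    by_cases s : ‖y‖ < ‖x‖ / 2
    · have a1 := norm_sub_norm_le x y
      have a2 := norm_sub_le (f x) (f y)
      rw [dist_eq_norm, dist_eq_norm]
      nlinarith [b x, b y, norm_nonneg y]
    · by_cases x0 : x = 0
      · subst x0
        obtain rfl : y = 0 := by simpa using l
        simp
      have n0 := norm_pos_iff.2 x0
      have m : ∀ z : X, ‖x‖ / 2 ≤ ‖z‖ → ‖z‖ ≤ ‖x‖ →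
          ‖x‖⁻¹ • z ∈ {x : X | 1 / 2 ≤ ‖x‖ ∧ ‖x‖ ≤ 1} := fun z p q => by
        simp only [mem_ofPred_eq, norm_smul, norm_inv, norm_norm]
        exact ⟨by rw [le_inv_mul_iff₀ n0]; linarith, by rw [inv_mul_le_iff₀ n0]; linarith⟩
      have := h1.dist_le_mul _ (m x (by linarith) le_rfl) _ (m y (not_lt.1 s) l)
      rw [hf _ _ (by positivity), hf _ _ (by positivity), dist_smul₀, dist_smul₀, mul_left_comm,
        mul_le_mul_iff_right₀ (by simpa using x0)] at this
      nlinarith [dist_nonneg (x := x) (y := y)]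
  refine LipschitzWith.of_dist_le_mul fun x y => ?_
  push_cast
  rcases le_total ‖y‖ ‖x‖ with l | l
  · exact key x y l
  · rw [dist_comm, dist_comm x]
    exact key y x l

end Pool.Agent.MP_6600f1_ag.Tr
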