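import Pool.Agent.MP_6600f1_ag.Model
import Pool.Agent.MP_6600f1_ag.h64.Ode
import Mathlib.Analysis.Calculus.ContDiff.RCLike
import Mathlib.Analysis.InnerProductSpace.Calculus
import Mathlib.Topology.Algebra.MetricSpace.Lipschitz

/-! A rigid isotopy is covered by a homeomorphism of `ℂ³` that commutes with complex scalars and
with complex conjugation and carries one form to the other. -/

open MvPolynomial Set Metric Filter Topology

noncomputable section

namespace Pool.Agent.MP_6600f1_ag.Tr

abbrev C3 : Type := Fin 3 → ℂ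

/-- equivalence of forms by an equivariant homeomorphism -/
def Eqv (F G : Form) : Prop :=
  ∃ φ : C3 ≃ₜ C3, (∀ (l : ℂ) x, φ (l • x) = l • φ x) ∧ (∀ x, φ (star x) = star (φ x)) ∧
    ∀ x, aeval (φ x) G = aeval x F

variable {n : ℕ} {F G H P : Form} {x : C3}

theorem Eqv.refl (F : Form) : Eqv F F :=
  ⟨.refl _, fun _ _ => rfl, fun _ => rfl, fun _ => rfl⟩

theorem Eqv.symm (h : Eqv F G) : Eqv G F := by
  obtain ⟨φ, h1, h2, h3⟩ := h
  exact ⟨φ.symm, fun l x => φ.injective (by simp [h1]), fun x => φ.injective (by simp [h2]),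
    fun x => by rw [← h3, φ.apply_symm_apply]⟩

theorem Eqv.trans (h : Eqv F G) (h' : Eqv G H) : Eqv F H := by
  obtain ⟨φ, h1, h2, h3⟩ := h
  obtain ⟨ψ, k1, k2, k3⟩ := h'
  exact ⟨φ.trans ψ, fun l x => by simp [h1, k1], fun x => by simp [h2, k2],
    fun x => by simp [h3, k3]⟩

theorem aeval_star (x : C3) (P : Form) : aeval (star x) P = star (aeval x P) := by
  induction P using MvPolynomial.induction_on with
  | C a => simp
  | add p q hp hq => simp [hp, hq]
  | mul_X p i hp => simp [hp]

theorem contDiff_aeval (P : Form) : ContDiff ℝ 1 fun x : C3 => aeval x P := by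
  induction P using MvPolynomial.induction_on with
  | C a => simpa using contDiff_const
  | add p q hp hq => simpa only [map_add] using hp.add hq
  | mul_X p i hp => simpa only [map_mul, aeval_X] using hp.mul (contDiff_apply ℝ ℂ i)

theorem deriv_aeval {c : ℝ → C3} {c' : C3} {s : Set ℝ} {t : ℝ} (h : HasDerivWithinAt c c' s t)
    (P : Form) : HasDerivWithinAt (fun t => aeval (c t) P)
      (∑ j, aeval (c t) (pderiv j P) * c' j) s t := by
  induction P using MvPolynomial.induction_on with
  | C a => simpa using hasDerivWithinAt_const t s (a : ℂ)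
  | add p q hp hq =>
    simpa only [map_add, add_mul, Finset.sum_add_distrib] using hp.fun_add hq
  | mul_X p i hp =>
    simp only [map_mul, aeval_X]
    refine (hp.fun_mul (hasDerivWithinAt_pi.1 h i)).congr_deriv ?_
    simp only [Derivation.leibniz, smul_eq_mul, map_add, map_mul, aeval_X, pderiv_X,
      Pi.single_apply, add_mul, Finset.sum_add_distrib, Finset.sum_mul]
    rw [add_comm]
    congr 1
    · rw [Finset.sum_eq_single i] <;> simp +contextual [eq_comm]
    · exact Finset.sum_congr rfl fun l _ => by ring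

/-- squared length of the gradient -/
def nq (F : Form) (x : C3) : ℂ := ∑ j, aeval x (pderiv j F) * star (aeval x (pderiv j F))

/-- the vector field -/
def fld (F P : Form) (x : C3) : C3 := fun j => -aeval x P * (nq F x)⁻¹ * star (aeval x (pderiv j F))

theorem nq_ne (hF : F.IsHomogeneous n) (hn : n ≠ 0) (h : Nonsing F) (hx : x ≠ 0) : nq F x ≠ 0 := by
  intro z
  have e : (∑ j, Complex.normSq (aeval x (pderiv j F))) = 0 := by
    have : ((∑ j, Complex.normSq (aeval x (pderiv j F)) : ℝ) : ℂ) = 0 := by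
      rw [← z, nq, Complex.ofReal_sum]
      exact Finset.sum_congr rfl fun _ _ => (Complex.mul_conj _).symm
    exact_mod_cast this
  have d : ∀ j, aeval x (pderiv j F) = 0 := fun j => Complex.normSq_eq_zero.1
    ((Finset.sum_eq_zero_iff_of_nonneg fun _ _ => Complex.normSq_nonneg _).1 e j (by simp))
  have := congrArg (aeval x) hF.sum_X_mul_pderiv
  obtain ⟨i, hi⟩ := h x hx (by simpa [d, hn] using this)
  exact hi (d i)

theorem fld_zero (hP : P.IsHomogeneous n) (hn : n ≠ 0) : fld F P 0 = 0 := by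
  have := aeval_smul hP (0 : ℂ) (0 : C3)
  funext j
  simp only [smul_zero, zero_pow hn, zero_mul] at this
  simp [fld, this]

theorem fld_smul (hF : F.IsHomogeneous n) (hP : P.IsHomogeneous n) (hn : n ≠ 0) (l : ℂ) (x : C3) :
    fld F P (l • x) = l • fld F P x := by
  by_cases l0 : l = 0
  · simp [l0, fld_zero hP hn]
  obtain ⟨n, rfl⟩ := Nat.exists_eq_succ_of_ne_zero hn
  have e : ∀ j, aeval (l • x) (pderiv j F) = l ^ n * aeval x (pderiv j F) := fun j =>
    aeval_smul hF.pderiv l x
  have q : nq F (l • x) = l ^ n * star l ^ n * nq F x := by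
    simp only [nq, e, Finset.mul_sum, star_mul', star_pow]
    exact Finset.sum_congr rfl fun _ _ => by ring
  have s0 : star l ≠ 0 := star_ne_zero.2 l0
  funext j
  simp only [fld, q, e, aeval_smul hP, star_mul', star_pow, Pi.smul_apply, smul_eq_mul, mul_inv,
    pow_succ]
  field_simp

theorem fld_star (F P : Form) (x : C3) : fld F P (star x) = star (fld F P x) := by
  funext j
  simp [fld, nq, aeval_star, mul_comm]

theorem fld_dot (h : nq F x ≠ 0) : ∑ j, aeval x (pderiv j F) * fld F P x j = -aeval x P := by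
  have : ∑ j, aeval x (pderiv j F) * fld F P x j = -aeval x P * (nq F x)⁻¹ * nq F x := by
    conv_rhs => rw [nq, Finset.mul_sum]
    exact Finset.sum_congr rfl fun _ _ => by simp only [fld, nq]; ring
  rw [this, mul_assoc, inv_mul_cancel₀ h, mul_one]

theorem fld_scale (F P : Form) (r : ℝ) (x : C3) : fld F (r • P) x = r • fld F P x := by
  funext j
  simp [fld, mul_assoc]

theorem eqv_of_good (hF : F.IsHomogeneous n) (hP : P.IsHomogeneous n) (hn : n ≠ 0)
    (h : ∀ t ∈ Icc (0 : ℝ) 1, Nonsing (F + t • P)) (g : Good fun t => fld (F + t • P) P) :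
    Eqv F (F + P) := by
  have hh : ∀ t : ℝ, (F + t • P).IsHomogeneous n := fun t => hF.add (hom_smul hP t)
  obtain ⟨φ, u⟩ := g.homeo
  refine ⟨φ, fun l x => ?_, fun x => ?_, fun x => ?_⟩ <;> obtain ⟨c, rfl, hc⟩ := g.ex x
  · have := u _ (hc.clm ((l • ContinuousLinearMap.id ℂ C3).restrictScalars ℝ)
      fun t _ x => fld_smul (hh t) hP hn l x)
    rw [← u c hc]
    exact this.symm
  · have := u _ (hc.clm (starL' ℝ : C3 ≃L[ℝ] C3).toContinuousLinearMap
      fun t _ x => fld_star _ _ x)
    rw [← u c hc]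
    exact this.symm
  · have d : ∀ t ∈ Icc (0 : ℝ) 1, HasDerivWithinAt
        (fun t : ℝ => aeval (c t) F + (t : ℂ) * aeval (c t) P) 0 (Icc 0 1) t := fun t ht => by
      refine ((deriv_aeval (hc t ht) F).fun_add
        ((Complex.ofRealCLM.hasDerivAt (x := t)).hasDerivWithinAt.fun_mul
          (deriv_aeval (hc t ht) P))).congr_deriv ?_
      by_cases z : c t = 0
      · have := aeval_smul hP (0 : ℂ) (0 : C3)
        simp only [smul_zero, zero_pow hn, zero_mul] at this
        simp [z, fld_zero hP hn, this]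
      · have := fld_dot (P := P) (nq_ne (hh t) hn (h t ht) z)
        simp only [map_add, Derivation.map_smul, map_smul, add_mul, Finset.sum_add_distrib,
          Complex.real_smul, mul_assoc, ← Finset.mul_sum] at this
        simp only [Complex.ofRealCLM_apply, Complex.ofReal_one, one_mul]
        linear_combination this
    have := constant_of_has_deriv_right_zero (fun t ht => (d t ht).continuousWithinAt)
      (fun t ht => (d t (Ico_subset_Icc_self ht)).mono_of_mem_nhdsWithin
        (Icc_mem_nhdsGE_of_mem ht)) 1 (by simp)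
    rw [← u c hc]
    simpa using this

theorem contDiff_fam (L : Form →ₗ[ℝ] Form) :
    ContDiff ℝ 1 fun q : E n × C3 => aeval q.2 (L (toF n q.1)) := by
  simp only [toF_apply, map_sum, map_smul]
  exact ContDiff.sum fun d _ => ((contDiff_apply ℝ ℝ d).comp contDiff_fst).smul
    ((contDiff_aeval _).comp contDiff_snd)

theorem contDiff_star : ContDiff ℝ 1 (star : ℂ → ℂ) := Complex.conjCLE.contDiff

theorem contDiff_nq : ContDiff ℝ 1 fun q : E n × C3 => nq (toF n q.1) q.2 :=
  ContDiff.sum fun j _ => (contDiff_fam (pderiv j).toLinearMap).mul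
    (contDiff_star.comp (contDiff_fam (pderiv j).toLinearMap))

theorem contDiffAt_fld {q : (E n × C3) × E n} (h : nq (toF n q.1.1) q.1.2 ≠ 0) :
    ContDiffAt ℝ 1 (fun q : (E n × C3) × E n => fld (toF n q.1.1) (toF n q.2) q.1.2) q := by
  refine contDiffAt_pi.2 fun j => (ContDiffAt.mul ?_ ?_).mul ?_
  · exact ((contDiff_fam LinearMap.id).comp
      (contDiff_snd.prodMk (contDiff_snd.comp contDiff_fst))).contDiffAt.neg
  · exact (contDiff_nq.comp contDiff_fst).contDiffAt.inv h
  · exact (contDiff_star.comp ((contDiff_fam (pderiv j).toLinearMap).comp contDiff_fst)).contDiffAt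

theorem eqv_loc (hn : n ≠ 0) {e : E n} (h : Nonsing (toF n e)) :
    ∀ᶠ e' in 𝓝 e, Eqv (toF n e) (toF n e') := by
  let S : Set C3 := {x | 1 / 2 ≤ ‖x‖ ∧ ‖x‖ ≤ 1}
  have cS : IsCompact S := (isCompact_closedBall (0 : C3) 1).of_isClosed_subset
    ((isClosed_le continuous_const continuous_norm).inter
      (isClosed_le continuous_norm continuous_const)) fun x hx => by simpa using hx.2
  have S0 : ∀ x ∈ S, x ≠ 0 := fun x hx z => by
    have := hx.1
    norm_num [z] at this
  have ev : ∀ᶠ e' in 𝓝 e, ∀ x ∈ S, nq (toF n e') x ≠ 0 :=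
    cS.eventually_forall_of_forall_eventually fun x hx =>
      contDiff_nq.continuous.continuousAt.eventually_ne (nq_ne (toF_hom e) hn h (S0 x hx))
  obtain ⟨δ, δ0, hδ⟩ := nhds_basis_closedBall.eventually_iff.1 ev
  let T : Set ((E n × C3) × E n) := (closedBall e δ ×ˢ S) ×ˢ closedBall 0 1
  have cT : IsCompact T := ((isCompact_closedBall _ _).prod cS).prod (isCompact_closedBall _ _)
  have sm : ∀ q ∈ T, ContDiffAt ℝ 1
      (fun q : (E n × C3) × E n => fld (toF n q.1.1) (toF n q.2) q.1.2) q := fun q hq =>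
    contDiffAt_fld (hδ hq.1.1 _ hq.1.2)
  obtain ⟨K1, hK1⟩ := LocallyLipschitzOn.exists_lipschitzOnWith_of_compact cT fun q hq => by
    obtain ⟨K, t, ht, hK⟩ := (sm q hq).exists_lipschitzOnWith
    exact ⟨K, t, mem_nhdsWithin_of_mem_nhds ht, hK⟩
  obtain ⟨K2, hK2⟩ := cT.exists_bound_of_continuousOn fun q hq =>
    (sm q hq).continuousAt.continuousWithinAt
  let K : NNReal := K1 + K2.toNNReal + 1
  have lip : ∀ a ∈ closedBall e δ, ∀ d ∈ closedBall (0 : E n) 1,
      LipschitzWith (4 * K) (fld (toF n a) (toF n d)) := fun a ha d hd => by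
    refine lip_of_shell (fun r x _ => fld_smul (toF_hom a) (toF_hom d) hn (r : ℂ) x)
      (LipschitzOnWith.of_dist_le_mul fun x hx y hy => ?_) fun x hx => ?_
    · have := hK1.dist_le_mul ((a, x), d) ⟨⟨ha, hx⟩, hd⟩ ((a, y), d) ⟨⟨ha, hy⟩, hd⟩
      simp only [Prod.dist_eq, dist_self, dist_nonneg, max_eq_right, max_eq_left] at this
      refine this.trans (mul_le_mul_of_nonneg_right ?_ dist_nonneg)
      simp only [K]
      push_cast
      linarith [K2.toNNReal.coe_nonneg]
    · refine (hK2 ((a, x), d) ⟨⟨ha, by rw [hx]; norm_num, hx.le⟩, hd⟩).trans ?_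
      simp only [K]
      push_cast
      linarith [K1.coe_nonneg, Real.le_coe_toNNReal K2]
  have K0 : (0 : ℝ) < K := by simp only [K]; positivity
  have ns : ∀ a ∈ closedBall e δ, Nonsing (toF n a) := fun a ha => nonsing_iff.2 fun p p0 s => by
    have n0 := norm_pos_iff.2 p0
    refine hδ ha (((‖p‖⁻¹ : ℝ) : ℂ) • p) ?_ (by simp [nq, (s.smul (toF_hom a) _).2])
    have : ‖((‖p‖⁻¹ : ℝ) : ℂ) • p‖ = 1 := by simp [norm_smul, n0.ne']
    exact ⟨by rw [this]; norm_num, this.le⟩
  filter_upwards [closedBall_mem_nhds e δ0, closedBall_mem_nhds e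
    (show 0 < (8 * (K : ℝ))⁻¹ by positivity)] with e' h1 h2
  have seg : ∀ t ∈ Icc (0 : ℝ) 1, e + t • (e' - e) ∈ closedBall e δ := fun t ht =>
    (convex_closedBall e δ).add_smul_sub_mem (mem_closedBall_self δ0.le) h1 ht
  have eq : ∀ t : ℝ, toF n e + t • toF n (e' - e) = toF n (e + t • (e' - e)) := fun t => by simp
  have md : (8 * (K : ℝ)) • (e' - e) ∈ closedBall (0 : E n) 1 := by
    rw [mem_closedBall, dist_eq_norm, ← one_div, le_div_iff₀ (by positivity)] at h2
    rw [mem_closedBall_zero_iff, norm_smul, Real.norm_of_nonneg (by positivity)]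
    linarith
  have := eqv_of_good (toF_hom e) (toF_hom (e' - e)) hn (fun t ht => eq t ▸ ns _ (seg t ht))
    ⟨fun t ht => LipschitzWith.of_dist_le_mul fun x y => ?_,
      fun t _ => fld_zero (toF_hom _) hn, fun x => ?_⟩
  · simpa using this
  · have := (lip _ (seg t ht) _ md).dist_le_mul x y
    rw [map_smul, fld_scale, fld_scale, dist_smul₀, Real.norm_of_nonneg (by positivity)] at this
    rw [eq]
    push_cast at this ⊢
    exact le_of_mul_le_mul_left (a := 8 * (K : ℝ)) (this.trans_eq (by ring)) (by positivity)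
  · by_cases x0 : x = 0
    · simp only [x0, fld_zero (toF_hom _) hn]
      exact continuousOn_const
    · intro t ht
      simp only [eq]
      have a : ContinuousAt (fun t : ℝ => ((e + t • (e' - e), x), e' - e)) t := by fun_prop
      have b := (contDiffAt_fld (q := ((e + t • (e' - e), x), e' - e))
        (nq_ne (toF_hom _) hn (ns _ (seg t ht)) x0)).continuousAt
      exact (ContinuousAt.comp (f := fun t : ℝ => ((e + t • (e' - e), x), e' - e))
        b a).continuousWithinAt

theorem transport {m : ℕ} (hm : 1 ≤ m) {F G : Form} (h : RigidIso m F G) :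
    ∃ c : ℝ, c ≠ 0 ∧ ∃ φ : C3 ≃ₜ C3, (∀ (l : ℂ) x, φ (l • x) = l • φ x) ∧
      (∀ x, φ (star x) = star (φ x)) ∧ ∀ x, aeval (φ x) (c • G) = aeval x F := by
  obtain ⟨γ, hc, hγ, h0, c, c0, h1⟩ := h
  refine ⟨c, c0, ?_⟩
  have cg : Continuous fun t => ofF m (γ t) := continuous_pi fun d => hc d.1
  have := PreconnectedSpace.induction₂' (fun s t => Eqv (γ s) (γ t)) (fun s => ?_)
    ⟨fun _ _ _ => Eqv.trans⟩ 0 1
  · rwa [h0, h1] at this
  · have := cg.continuousAt.eventually (eqv_loc (e := ofF m (γ s)) (by omega)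
      (by rw [toF_ofF (hγ s).1]; exact (hγ s).2))
    filter_upwards [this] with t ht
    rw [toF_ofF (hγ s).1, toF_ofF (hγ t).1] at ht
    exact ⟨ht, ht.symm⟩

end Pool.Agent.MP_6600f1_ag.Tr
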